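import Mathlib

/-!
# Equal order and equal degree pattern do not force equal prime graphs

`G = (C_31 × C_3) ⋊ C_10` and `M = (C_31 × C_5) ⋊ C_6` both have order `930` and degree pattern
`(1, 2, 2, 1)`, but `3` and `31` are adjacent in the prime graph of `G` and not in that of `M`.
-/

set_option autoImplicit false

namespace Pool.Agent.Results.MP_21cc58_al.EqualOrderPattern

/-- The prime graph (Gruenberg-Kegel graph) of `G`, as a graph on `ℕ` all of whose edges join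
primes dividing `|G|`: distinct prime divisors `p`, `q` of `|G|` are adjacent iff `G` has an
element of order `p * q`. -/
def primeGraph (G : Type) [Group G] : SimpleGraph ℕ where
  Adj p q := p ∈ (Nat.card G).primeFactors ∧ q ∈ (Nat.card G).primeFactors ∧ p ≠ q ∧
    ∃ g : G, orderOf g = p * q
  symm := ⟨fun p q h => ⟨h.2.1, h.1, h.2.2.1.symm, by
    obtain ⟨g, hg⟩ := h.2.2.2
    exact ⟨g, by rw [hg, mul_comm]⟩⟩⟩
  loopless := ⟨fun p h => h.2.2.1 rfl⟩

/-- The degree pattern of `G`: the list of the degrees in the prime graph of the primes dividing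
`|G|`, these primes being taken in increasing order. -/
noncomputable def degreePattern (G : Type) [Group G] : List ℕ :=
  ((Nat.card G).primeFactors.sort (· ≤ ·)).map fun p => Nat.card {q // (primeGraph G).Adj p q}

/-- Triples `(a, b, k)`, `a ∈ Z/m₁`, `b ∈ Z/m₂`, `k ∈ Z/n`, with the product
`(a, b, k) (a', b', k') = (a + w₁ ^ k a', b + w₂ ^ k b', k + k')`. -/
@[ext] structure Tw (m₁ m₂ n : ℕ) (w₁ : ZMod m₁) (w₂ : ZMod m₂) where
  a : ZMod m₁
  b : ZMod m₂
  k : ZMod n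
deriving DecidableEq

namespace Tw

variable {m₁ m₂ n : ℕ} {w₁ : ZMod m₁} {w₂ : ZMod m₂}

lemma pow_val_add [NeZero n] {R : Type} [Monoid R] {w : R} (hw : w ^ n = 1) (k l : ZMod n) :
    w ^ (k + l).val = w ^ k.val * w ^ l.val := by
  rw [ZMod.val_add, ← pow_add]
  exact (pow_eq_pow_mod _ hw).symm

instance : Mul (Tw m₁ m₂ n w₁ w₂) :=
  ⟨fun x y => ⟨x.a + w₁ ^ x.k.val * y.a, x.b + w₂ ^ x.k.val * y.b, x.k + y.k⟩⟩
instance : One (Tw m₁ m₂ n w₁ w₂) := ⟨⟨0, 0, 0⟩⟩
instance : Inv (Tw m₁ m₂ n w₁ w₂) :=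
  ⟨fun x => ⟨-(w₁ ^ (-x.k).val * x.a), -(w₂ ^ (-x.k).val * x.b), -x.k⟩⟩

@[simp] lemma mul_a (x y : Tw m₁ m₂ n w₁ w₂) : (x * y).a = x.a + w₁ ^ x.k.val * y.a := rfl
@[simp] lemma mul_b (x y : Tw m₁ m₂ n w₁ w₂) : (x * y).b = x.b + w₂ ^ x.k.val * y.b := rfl
@[simp] lemma mul_k (x y : Tw m₁ m₂ n w₁ w₂) : (x * y).k = x.k + y.k := rfl
@[simp] lemma one_a : (1 : Tw m₁ m₂ n w₁ w₂).a = 0 := rfl
@[simp] lemma one_b : (1 : Tw m₁ m₂ n w₁ w₂).b = 0 := rfl
@[simp] lemma one_k : (1 : Tw m₁ m₂ n w₁ w₂).k = 0 := rfl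
@[simp] lemma inv_a (x : Tw m₁ m₂ n w₁ w₂) : (x⁻¹).a = -(w₁ ^ (-x.k).val * x.a) := rfl
@[simp] lemma inv_b (x : Tw m₁ m₂ n w₁ w₂) : (x⁻¹).b = -(w₂ ^ (-x.k).val * x.b) := rfl
@[simp] lemma inv_k (x : Tw m₁ m₂ n w₁ w₂) : (x⁻¹).k = -x.k := rfl

/-- The group structure, for `w₁ ^ n = 1` and `w₂ ^ n = 1`. -/
instance [NeZero n] [h₁ : Fact (w₁ ^ n = 1)] [h₂ : Fact (w₂ ^ n = 1)] :
    Group (Tw m₁ m₂ n w₁ w₂) :=
  Group.ofLeftAxioms
    (by
      intro x y z
      ext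
      · simp only [mul_a, mul_k, pow_val_add h₁.out]; ring
      · simp only [mul_b, mul_k, pow_val_add h₂.out]; ring
      · simp only [mul_k]; ring)
    (by intro x; ext <;> simp)
    (by intro x; ext <;> simp)

def equiv (m₁ m₂ n : ℕ) (w₁ : ZMod m₁) (w₂ : ZMod m₂) :
    Tw m₁ m₂ n w₁ w₂ ≃ ZMod m₁ × ZMod m₂ × ZMod n where
  toFun x := (x.a, x.b, x.k)
  invFun x := ⟨x.1, x.2.1, x.2.2⟩
  left_inv _ := rfl
  right_inv _ := rfl

variable [NeZero n] [h₁ : Fact (w₁ ^ n = 1)] [h₂ : Fact (w₂ ^ n = 1)]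

lemma pow_k (x : Tw m₁ m₂ n w₁ w₂) (j : ℕ) : (x ^ j).k = j * x.k := by
  induction j with
  | zero => simp
  | succ j ih => rw [pow_succ, mul_k, ih]; push_cast; ring

lemma pow_ab {x : Tw m₁ m₂ n w₁ w₂} (hx : x.k = 0) (j : ℕ) :
    (x ^ j).a = j * x.a ∧ (x ^ j).b = j * x.b := by
  induction j with
  | zero => simp
  | succ j ih =>
    have hk : (x ^ j).k = 0 := by rw [pow_k, hx, mul_zero]
    rw [pow_succ, mul_a, mul_b, ih.1, ih.2, hk]
    push_cast
    simp only [ZMod.val_zero, pow_zero, one_mul]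
    constructor <;> ring

/-- If `j k = 0`, then the order of `(a, b, k)` divides `j m₁ m₂`. -/
lemma orderOf_dvd {x : Tw m₁ m₂ n w₁ w₂} {j : ℕ} (hx : (j : ZMod n) * x.k = 0) :
    orderOf x ∣ j * (m₁ * m₂) := by
  apply orderOf_dvd_of_pow_eq_one
  rw [pow_mul]
  have hk : (x ^ j).k = 0 := by rw [pow_k, hx]
  ext
  · rw [(pow_ab hk _).1]; simp
  · rw [(pow_ab hk _).2]; simp
  · rw [pow_k, hk, mul_zero]; rfl

/-- An element whose order is coprime to `n` lies in the kernel of the projection to `Z/n`. -/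
lemma k_eq_zero {x : Tw m₁ m₂ n w₁ w₂} {p : ℕ} (hp : p.Coprime n) (hx : x ^ p = 1) :
    x.k = 0 := by
  have h := congrArg Tw.k hx
  rw [pow_k, one_k] at h
  have hu : IsUnit (p : ZMod n) := (ZMod.isUnit_iff_coprime p n).mpr hp
  exact (hu.mul_right_eq_zero).mp h

lemma comm_ab {g x : Tw m₁ m₂ n w₁ w₂} (hx : x.k = 0) (h : g * x = x * g) :
    w₁ ^ g.k.val * x.a = x.a ∧ w₂ ^ g.k.val * x.b = x.b := by
  have ha := congrArg Tw.a h
  have hb := congrArg Tw.b h
  simp only [mul_a, mul_b, hx, ZMod.val_zero, pow_zero, one_mul] at ha hb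
  constructor
  · linear_combination ha
  · linear_combination hb

lemma card_eq : Nat.card (Tw m₁ m₂ n w₁ w₂) = m₁ * (m₂ * n) := by
  rw [Nat.card_congr (equiv m₁ m₂ n w₁ w₂)]
  simp [Nat.card_prod, Nat.card_zmod]

end Tw

instance : Fact ((27 : ZMod 31) ^ 10 = 1) := ⟨by decide⟩
instance : Fact ((2 : ZMod 3) ^ 10 = 1) := ⟨by decide⟩
instance : Fact ((26 : ZMod 31) ^ 6 = 1) := ⟨by decide⟩
instance : Fact ((4 : ZMod 5) ^ 6 = 1) := ⟨by decide⟩

/-- `(C_31 × C_3) ⋊ C_10`. -/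
abbrev G₀ : Type := Tw 31 3 10 27 2
/-- `(C_31 × C_5) ⋊ C_6`. -/
abbrev M₀ : Type := Tw 31 5 6 26 4

lemma pf : (930 : ℕ).primeFactors = {2, 3, 5, 31} := by
  decide +kernel

lemma exists_order {G : Type} [Group G] (x : G) {p q : ℕ} (hp : p.Prime) (hq : q.Prime)
    (h : x ^ (p * q) = 1) (h1 : x ^ p ≠ 1) (h2 : x ^ q ≠ 1) : orderOf x = p * q := by
  apply orderOf_eq_of_pow_and_pow_div_prime (Nat.mul_pos hp.pos hq.pos) h
  intro r hr hrd
  rcases (Nat.Prime.dvd_mul hr).mp hrd with h3 | h3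
  · rw [(Nat.prime_dvd_prime_iff_eq hr hp).mp h3, Nat.mul_div_cancel_left _ hp.pos]
    exact h2
  · rw [(Nat.prime_dvd_prime_iff_eq hr hq).mp h3, Nat.mul_div_cancel _ hq.pos]
    exact h1

namespace Tw

variable {m₁ m₂ n : ℕ} {w₁ : ZMod m₁} {w₂ : ZMod m₂}
variable [NeZero n] [h₁ : Fact (w₁ ^ n = 1)] [h₂ : Fact (w₂ ^ n = 1)]

lemma key₁ [Fact m₁.Prime] (hc : m₁.Coprime n) (hc2 : m₁.Coprime m₂)
    {g : Tw m₁ m₂ n w₁ w₂} {r : ℕ} (hg : orderOf g = m₁ * r) (hr : 0 < r) {j : ℕ}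
    (hj : ∀ k : ZMod n, w₁ ^ k.val = 1 → (j : ZMod n) * k = 0) :
    m₁ * r ∣ j * (m₁ * m₂) := by
  rw [← hg]
  apply orderOf_dvd
  apply hj
  have hx1 : (g ^ r) ^ m₁ = 1 := by
    rw [← pow_mul, mul_comm, ← hg, pow_orderOf_eq_one]
  have hxne : g ^ r ≠ 1 := by
    intro h
    have h3 := orderOf_dvd_of_pow_eq_one h
    rw [hg] at h3
    have h4 := Nat.le_of_dvd hr h3
    have h5 : 2 ≤ m₁ := (Fact.out : m₁.Prime).two_le
    nlinarith
  have hk := k_eq_zero hc hx1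
  have hb : (g ^ r).b = 0 := by
    have h := congrArg Tw.b hx1
    rw [(pow_ab hk _).2, one_b] at h
    exact ((ZMod.isUnit_iff_coprime m₁ m₂).mpr hc2).mul_right_eq_zero.mp h
  have ha : (g ^ r).a ≠ 0 := by
    intro ha
    exact hxne (by ext <;> simp [ha, hb, hk])
  have hcm := (comm_ab hk (pow_mul_comm' g r).symm).1
  exact mul_right_cancel₀ ha (by rw [one_mul]; exact hcm)

lemma key₂ [Fact m₂.Prime] (hc : m₂.Coprime n) (hc2 : m₂.Coprime m₁)
    {g : Tw m₁ m₂ n w₁ w₂} {r : ℕ} (hg : orderOf g = m₂ * r) (hr : 0 < r) {j : ℕ}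
    (hj : ∀ k : ZMod n, w₂ ^ k.val = 1 → (j : ZMod n) * k = 0) :
    m₂ * r ∣ j * (m₁ * m₂) := by
  rw [← hg]
  apply orderOf_dvd
  apply hj
  have hx1 : (g ^ r) ^ m₂ = 1 := by
    rw [← pow_mul, mul_comm, ← hg, pow_orderOf_eq_one]
  have hxne : g ^ r ≠ 1 := by
    intro h
    have h3 := orderOf_dvd_of_pow_eq_one h
    rw [hg] at h3
    have h4 := Nat.le_of_dvd hr h3
    have h5 : 2 ≤ m₂ := (Fact.out : m₂.Prime).two_le
    nlinarith
  have hk := k_eq_zero hc hx1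
  have ha : (g ^ r).a = 0 := by
    have h := congrArg Tw.a hx1
    rw [(pow_ab hk _).1, one_a] at h
    exact ((ZMod.isUnit_iff_coprime m₂ m₁).mpr hc2).mul_right_eq_zero.mp h
  have hb : (g ^ r).b ≠ 0 := by
    intro hb
    exact hxne (by ext <;> simp [ha, hb, hk])
  have hcm := (comm_ab hk (pow_mul_comm' g r).symm).2
  exact mul_right_cancel₀ hb (by rw [one_mul]; exact hcm)

end Tw

instance : Fact (Nat.Prime 31) := ⟨by norm_num⟩
instance : Fact (Nat.Prime 5) := ⟨by norm_num⟩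
instance : Fact (Nat.Prime 3) := ⟨by norm_num⟩

lemma card_G : Nat.card G₀ = 930 := by rw [Tw.card_eq]
lemma card_M : Nat.card M₀ = 930 := by rw [Tw.card_eq]

/-- The edges of the prime graph of `G₀`. -/
def edgesG : Finset (ℕ × ℕ) := {(2, 5), (5, 2), (3, 5), (5, 3), (3, 31), (31, 3)}
/-- The edges of the prime graph of `M₀`. -/
def edgesM : Finset (ℕ × ℕ) := {(2, 3), (3, 2), (3, 5), (5, 3), (5, 31), (31, 5)}

lemma exG : (∃ g : G₀, orderOf g = 2 * 5) ∧ (∃ g : G₀, orderOf g = 3 * 5) ∧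
    (∃ g : G₀, orderOf g = 3 * 31) := by
  refine ⟨⟨⟨0, 0, 1⟩, ?_⟩, ⟨⟨0, 1, 2⟩, ?_⟩, ⟨⟨1, 1, 0⟩, ?_⟩⟩
  · exact exists_order _ (by norm_num) (by norm_num) (by decide) (by decide) (by decide)
  · exact exists_order _ (by norm_num) (by norm_num) (by decide) (by decide) (by decide)
  · exact exists_order _ (by norm_num) (by norm_num) (by decide +kernel) (by decide +kernel)
      (by decide +kernel)

lemma exM : (∃ g : M₀, orderOf g = 2 * 3) ∧ (∃ g : M₀, orderOf g = 3 * 5) ∧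
    (∃ g : M₀, orderOf g = 5 * 31) := by
  refine ⟨⟨⟨0, 0, 1⟩, ?_⟩, ⟨⟨0, 1, 2⟩, ?_⟩, ⟨⟨1, 1, 0⟩, ?_⟩⟩
  · exact exists_order _ (by norm_num) (by norm_num) (by decide) (by decide) (by decide)
  · exact exists_order _ (by norm_num) (by norm_num) (by decide) (by decide) (by decide)
  · exact exists_order _ (by norm_num) (by norm_num) (by decide +kernel) (by decide +kernel)
      (by decide +kernel)

lemma nG : (∀ g : G₀, orderOf g ≠ 31 * 2) ∧ (∀ g : G₀, orderOf g ≠ 31 * 5) ∧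
    (∀ g : G₀, orderOf g ≠ 3 * 2) := by
  refine ⟨fun g hg => ?_, fun g hg => ?_, fun g hg => ?_⟩
  · have := Tw.key₁ (by norm_num) (by norm_num) hg (by norm_num) (j := 1) (by decide)
    revert this; norm_num
  · have := Tw.key₁ (by norm_num) (by norm_num) hg (by norm_num) (j := 1) (by decide)
    revert this; norm_num
  · have := Tw.key₂ (by norm_num) (by norm_num) hg (by norm_num) (j := 5) (by decide)
    revert this; norm_num

lemma nM : (∀ g : M₀, orderOf g ≠ 31 * 2) ∧ (∀ g : M₀, orderOf g ≠ 31 * 3) ∧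
    (∀ g : M₀, orderOf g ≠ 5 * 2) := by
  refine ⟨fun g hg => ?_, fun g hg => ?_, fun g hg => ?_⟩
  · have := Tw.key₁ (by norm_num) (by norm_num) hg (by norm_num) (j := 1) (by decide)
    revert this; norm_num
  · have := Tw.key₁ (by norm_num) (by norm_num) hg (by norm_num) (j := 1) (by decide)
    revert this; norm_num
  · have := Tw.key₂ (by norm_num) (by norm_num) hg (by norm_num) (j := 3) (by decide)
    revert this; norm_num

lemma adjG (p q : ℕ) : (primeGraph G₀).Adj p q ↔ (p, q) ∈ edgesG := by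
  obtain ⟨e1, e2, e3⟩ := exG
  obtain ⟨n1, n2, n3⟩ := nG
  simp only [primeGraph, card_G, pf, edgesG, Finset.mem_insert, Finset.mem_singleton,
    Prod.mk.injEq]
  constructor
  · rintro ⟨hp, hq, hne, g, hg⟩
    rcases hp with rfl | rfl | rfl | rfl <;> rcases hq with rfl | rfl | rfl | rfl <;>
      first
      | exact absurd rfl hne
      | (exfalso; exact n1 g hg)
      | (exfalso; exact n2 g hg)
      | (exfalso; exact n3 g hg)
      | simp
  · rintro (⟨rfl, rfl⟩ | ⟨rfl, rfl⟩ | ⟨rfl, rfl⟩ | ⟨rfl, rfl⟩ | ⟨rfl, rfl⟩ | ⟨rfl, rfl⟩)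
    all_goals refine ⟨by simp, by simp, by norm_num, ?_⟩
    · exact e1
    · exact e1
    · exact e2
    · exact e2
    · exact e3
    · exact e3

lemma adjM (p q : ℕ) : (primeGraph M₀).Adj p q ↔ (p, q) ∈ edgesM := by
  obtain ⟨e1, e2, e3⟩ := exM
  obtain ⟨n1, n2, n3⟩ := nM
  simp only [primeGraph, card_M, pf, edgesM, Finset.mem_insert, Finset.mem_singleton,
    Prod.mk.injEq]
  constructor
  · rintro ⟨hp, hq, hne, g, hg⟩
    rcases hp with rfl | rfl | rfl | rfl <;> rcases hq with rfl | rfl | rfl | rfl <;>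
      first
      | exact absurd rfl hne
      | (exfalso; exact n1 g hg)
      | (exfalso; exact n2 g hg)
      | (exfalso; exact n3 g hg)
      | simp
  · rintro (⟨rfl, rfl⟩ | ⟨rfl, rfl⟩ | ⟨rfl, rfl⟩ | ⟨rfl, rfl⟩ | ⟨rfl, rfl⟩ | ⟨rfl, rfl⟩)
    all_goals refine ⟨by simp, by simp, by norm_num, ?_⟩
    · exact e1
    · exact e1
    · exact e2
    · exact e2
    · exact e3
    · exact e3

lemma pattern_eq {G : Type} [Group G] (hc : Nat.card G = 930) (S : Finset (ℕ × ℕ))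
    (h : ∀ p q, (primeGraph G).Adj p q ↔ (p, q) ∈ S) :
    degreePattern G = [2, 3, 5, 31].map fun p => (S.filter fun e => e.1 = p).card := by
  have hs : ((930 : ℕ).primeFactors.sort (· ≤ ·)) = [2, 3, 5, 31] := by
    rw [pf]
    have : ({2, 3, 5, 31} : Finset ℕ) = [2, 3, 5, 31].toFinset := by decide
    rw [this]
    exact (List.toFinset_sort _ (by decide)).mpr (by decide)
  unfold degreePattern
  rw [hc, hs]
  congr 1
  funext p
  have : {q // (primeGraph G).Adj p q} ≃ {e // e ∈ S.filter fun e => e.1 = p} :=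
    { toFun := fun q => ⟨(p, q.1), by simp [(h p q.1).mp q.2]⟩
      invFun := fun e => ⟨e.1.2, by
        have he := Finset.mem_filter.mp e.2
        have h2 : e.1 = (p, e.1.2) := Prod.ext he.2 rfl
        exact (h _ _).mpr (h2 ▸ he.1)⟩
      left_inv := fun q => rfl
      right_inv := fun e => by
        have he := Finset.mem_filter.mp e.2
        ext
        · exact he.2.symm
        · rfl }
  rw [Nat.card_congr this, Nat.card_eq_fintype_card, Fintype.card_coe]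

/-- There are finite groups `G` and `M` of the same order and with the same degree pattern but with
different prime graphs. -/
theorem result : ∃ (G M : Type) (_ : Group G) (_ : Group M) (_ : Finite G) (_ : Finite M),
    Nat.card G = Nat.card M ∧ degreePattern G = degreePattern M ∧
      primeGraph G ≠ primeGraph M := by
  refine ⟨G₀, M₀, inferInstance, inferInstance, Finite.of_equiv _ (Tw.equiv _ _ _ _ _).symm,
    Finite.of_equiv _ (Tw.equiv _ _ _ _ _).symm, ?_, ?_, ?_⟩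
  · rw [card_G, card_M]
  · rw [pattern_eq card_G edgesG adjG, pattern_eq card_M edgesM adjM]
    decide
  · intro h
    have h1 : (primeGraph G₀).Adj 3 31 := (adjG 3 31).mpr (by decide)
    rw [h, adjM] at h1
    revert h1
    decide

end Pool.Agent.Results.MP_21cc58_al.EqualOrderPattern
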